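import Pool.Agent.Q74.BH.Stm

/-!
# Project BH (helper74), job BH-Real (helper223): real estimates
-/

set_option autoImplicit false
set_option linter.all false

namespace Pool.Agent.Q223.BH

open Finset Pool.Agent.Q74.BH Pool.Agent.Q74.SF
open Pool.Agent.Q158.Col4 (cI)

/-- the logarithms are large -/
theorem log_large (M : ℝ) : ∃ H₀ : ℕ, 1 ≤ H₀ ∧ ∀ H : ℕ, H₀ ≤ H → M ≤ Real.log H := by
  refine ⟨max 1 ⌈Real.exp M⌉₊, le_max_left _ _, fun H hH => ?_⟩
  have h1 : Real.exp M ≤ H := (Nat.le_ceil _).trans (by exact_mod_cast (le_max_right _ _).trans hH)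
  calc M = Real.log (Real.exp M) := (Real.log_exp M).symm
    _ ≤ Real.log H := Real.log_le_log (Real.exp_pos M) h1

/-- roots against linear functions -/
theorem sq_lin (A B : ℝ) {c : ℝ} (hc : 0 < c) : ∃ M : ℝ, 1 ≤ M ∧ ∀ x, M ≤ x → A * √x + B ≤ c * x := by
  refine ⟨max 1 (((|A| + |B|) / c) ^ 2), le_max_left _ _, fun x hx => ?_⟩
  have h0 : 1 ≤ x := (le_max_left _ _).trans hx
  have h1 : 1 ≤ √x := by
    rw [Real.one_le_sqrt]
    exact h0
  have h2 : (|A| + |B|) / c ≤ √x := by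
    refine Real.le_sqrt_of_sq_le ?_
    exact (le_max_right _ _).trans hx
  rw [div_le_iff₀ hc] at h2
  have h3 : √x * √x = x := Real.mul_self_sqrt (by linarith)
  calc A * √x + B ≤ |A| * √x + |B| * √x := by
        have h4 := mul_le_mul_of_nonneg_right (le_abs_self A) (by linarith : (0 : ℝ) ≤ √x)
        have h5 := le_abs_self B
        have h6 := mul_le_mul_of_nonneg_left h1 (abs_nonneg B)
        linarith
    _ = (|A| + |B|) * √x := by ring
    _ ≤ (√x * c) * √x := mul_le_mul_of_nonneg_right h2 (by linarith)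
    _ = c * (√x * √x) := by ring
    _ = c * x := by rw [h3]

/-- logarithms against roots -/
theorem log_sq {c : ℝ} (hc : 0 < c) : ∃ M : ℝ, 1 ≤ M ∧ ∀ x, M ≤ x → Real.log x ≤ c * √x := by
  refine ⟨max 1 ((4 / c) ^ 4), le_max_left _ _, fun x hx => ?_⟩
  have h0 : 1 ≤ x := (le_max_left _ _).trans hx
  have h1 := Real.log_le_rpow_div (x := x) (ε := 1 / 4) (by linarith) (by norm_num)
  have h2 : x ^ (1 / 4 : ℝ) * x ^ (1 / 4 : ℝ) = √x := by
    rw [← Real.rpow_add (by linarith), Real.sqrt_eq_rpow]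
    norm_num
  have h3 : 4 / c ≤ x ^ (1 / 4 : ℝ) := by
    have h4 : ((4 / c) ^ 4) ^ (1 / 4 : ℝ) ≤ x ^ (1 / 4 : ℝ) :=
      Real.rpow_le_rpow (by positivity) ((le_max_right _ _).trans hx) (by norm_num)
    have h5 : ((4 / c) ^ 4) ^ (1 / 4 : ℝ) = 4 / c := by
      rw [← Real.rpow_natCast, ← Real.rpow_mul (by positivity)]
      norm_num
    rwa [h5] at h4
  rw [div_le_iff₀ hc] at h3
  have h6 : 0 ≤ x ^ (1 / 4 : ℝ) := by positivity
  rw [← h2]
  nlinarith

theorem cI_pos : 0 < cI := by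
  unfold cI
  exact div_pos (by norm_num) (Real.log_pos (by norm_num))

theorem cI_mul : cI * (Real.log 2 - Real.log 3 / 2) = 1 := by
  have h1 : Real.log (4 / 3) = 2 * Real.log 2 - Real.log 3 := Pool.Agent.Q158.Col4.log43_eq
  have h2 : 0 < Real.log (4 / 3) := Real.log_pos (by norm_num)
  unfold cI
  rw [h1] at h2 ⊢
  have h3 : 2 * Real.log 2 - Real.log 3 ≠ 0 := h2.ne'
  field_simp

theorem typ_mem {K : ℝ} {m o : ℕ} (h : o ∈ Typ K m) : |(o : ℝ) - m / 2| ≤ K * √m := by
  unfold Typ at h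
  exact (Finset.mem_filter.1 h).2

/-- the logarithm of the length of the window -/
theorem log_ln {m o H : ℕ} (hH : 1 ≤ H) :
    ln m o H = Real.exp (Real.log H + o * Real.log 3 - m * Real.log 2) := by
  have h1 : (0 : ℝ) < H := by exact_mod_cast hH
  rw [Real.exp_sub, Real.exp_add, Real.exp_log h1, mul_comm (o : ℝ), mul_comm (m : ℝ),
    Real.exp_mul, Real.exp_mul, Real.exp_log (by norm_num), Real.exp_log (by norm_num),
    Real.rpow_natCast, Real.rpow_natCast]
  rfl

theorem log3_pos : 0 < Real.log 3 := Real.log_pos (by norm_num)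

theorem log2_pos : 0 < Real.log 2 := Real.log_pos (by norm_num)

theorem iln : 0 < Real.log 2 - Real.log 3 / 2 := by
  have h1 := cI_mul
  have h2 := cI_pos
  by_contra h
  push Not at h
  nlinarith

/-- **JOB OffT** -/
theorem offT : S_OffT := by
  intro ρ κ K hρ hκ hK
  have hc := cI_pos
  have hcm := cI_mul
  have hi := iln
  obtain ⟨M1, hM1, h1⟩ := log_sq (c := ρ * √κ / (2 * K)) (by positivity)
  obtain ⟨M2, hM2, h2⟩ := sq_lin (K * Real.log 3) 0 (c := ρ * κ / 2) (by positivity)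
  set δ : ℝ := ρ * κ * cI / 2 with hδ
  have hδ0 : 0 < δ := by positivity
  -- `m` is large
  obtain ⟨H₀, hH0, hH⟩ := log_large ((1 + δ) * (M1 / κ + M2) / cI)
  refine ⟨δ, hδ0, H₀, fun H hHH m r hr hm1 hm2 k o ho x z hz => ?_⟩
  have hlog := hH H hHH
  rw [div_le_iff₀ hc] at hlog
  have hm : M1 / κ + M2 ≤ m := by
    have h3 : (1 + δ) * (M1 / κ + M2) ≤ (1 + δ) * m := by
      calc _ ≤ Real.log H * cI := hlog
        _ = cI * Real.log H := mul_comm _ _
        _ ≤ _ := hm1
    exact le_of_mul_le_mul_left h3 (by linarith)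
  have hM1κ : 0 < M1 / κ := by positivity
  have hm' : M2 ≤ m := by linarith
  have hm0 : (0 : ℝ) ≤ m := Nat.cast_nonneg _
  have hrM : M1 ≤ r := by
    have h3 : M1 / κ ≤ m := by linarith
    rw [div_le_iff₀ hκ] at h3
    linarith [mul_comm (m : ℝ) κ]
  have hr0 : (0 : ℝ) ≤ r := Nat.cast_nonneg _
  have hHp : 1 ≤ H := hH0.trans hHH
  have hHp' : (0 : ℝ) < H := by exact_mod_cast hHp
  constructor
  · intro i j
    have e1 := abs_le.1 (typ_mem (ho i))
    have e2 := abs_le.1 (typ_mem (ho j))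
    have h4 : ((o j : ℝ) - o i) ≤ 2 * K * √m := by linarith [e1.1, e2.2]
    have h5 : 0 ≤ Real.log r := Real.log_nonneg (by linarith)
    have h6 := h1 r hrM
    have h7 : √κ * √m ≤ √r := by
      rw [← Real.sqrt_mul hκ.le]
      exact Real.sqrt_le_sqrt hr
    calc ((o j : ℝ) - o i) * Real.log r ≤ (2 * K * √m) * Real.log r :=
          mul_le_mul_of_nonneg_right h4 h5
      _ ≤ (2 * K * √m) * (ρ * √κ / (2 * K) * √r) := mul_le_mul_of_nonneg_left h6 (by positivity)
      _ = ρ * (√κ * √m) * √r := by field_simp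
      _ ≤ ρ * √r * √r := by
          refine mul_le_mul_of_nonneg_right (mul_le_mul_of_nonneg_left h7 hρ.le) (Real.sqrt_nonneg _)
      _ = ρ * r := by rw [mul_assoc, Real.mul_self_sqrt hr0]
  · intro i j hij
    -- the windows
    have hw : ∀ i, (x : ℝ) * 3 ^ o i / 2 ^ m ≤ z i ∧ (z i : ℝ) < ((x : ℝ) + H) * 3 ^ o i / 2 ^ m := by
      intro i
      have h4 := hz i
      unfold Jw at h4
      rw [Finset.mem_Ico, Int.ceil_le, Int.lt_ceil] at h4
      exact h4
    have e3 : (3 : ℝ) ^ (o j - o i) * 3 ^ o i = 3 ^ o j := by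
      rw [← pow_add, Nat.sub_add_cancel hij]
    have h3 : (0 : ℝ) < 3 ^ (o j - o i) := by positivity
    have h4 : |(z j : ℝ) - 3 ^ (o j - o i) * z i| ≤ 3 ^ (o j - o i) * ln m (o i) H := by
      have a1 := (hw j).1
      have a2 := (hw j).2
      have b1 := mul_le_mul_of_nonneg_left (hw i).1 h3.le
      have b2 := mul_le_mul_of_nonneg_left (hw i).2.le h3.le
      have c1 : (3 : ℝ) ^ (o j - o i) * ((x : ℝ) * 3 ^ o i / 2 ^ m) = x * 3 ^ o j / 2 ^ m := by
        rw [← e3]
        ring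
      have c2 : (3 : ℝ) ^ (o j - o i) * (((x : ℝ) + H) * 3 ^ o i / 2 ^ m) =
          (x + H) * 3 ^ o j / 2 ^ m := by
        rw [← e3]
        ring
      have c3 : (3 : ℝ) ^ (o j - o i) * ln m (o i) H =
          (x + H) * 3 ^ o j / 2 ^ m - x * 3 ^ o j / 2 ^ m := by
        unfold ln
        rw [← e3]
        ring
      rw [c1] at b1
      rw [c2] at b2
      rw [c3, abs_le]
      constructor <;> linarith
    refine h4.trans (mul_le_mul_of_nonneg_left ?_ h3.le)
    rw [log_ln hHp]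
    apply Real.exp_le_exp.2
    have e1 := (abs_le.1 (typ_mem (ho i))).2
    have h5 := h2 m hm'
    have h6 : (o i : ℝ) * Real.log 3 ≤ (m / 2 + K * √m) * Real.log 3 :=
      mul_le_mul_of_nonneg_right (by linarith) log3_pos.le
    have h7 : Real.log H ≤ (1 + δ) * m * (Real.log 2 - Real.log 3 / 2) := by
      have h8 := mul_le_mul_of_nonneg_right hm1 hi.le
      have h9 : cI * Real.log H * (Real.log 2 - Real.log 3 / 2) = Real.log H := by
        calc _ = (cI * (Real.log 2 - Real.log 3 / 2)) * Real.log H := by ring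
          _ = _ := by rw [hcm, one_mul]
      rw [h9] at h8
      exact h8
    have h10 : δ * m * (Real.log 2 - Real.log 3 / 2) = ρ * κ / 2 * m := by
      rw [hδ]
      calc _ = (cI * (Real.log 2 - Real.log 3 / 2)) * (ρ * κ / 2 * m) := by ring
        _ = _ := by rw [hcm, one_mul]
    have h11 : ρ * (κ * m) ≤ ρ * r := mul_le_mul_of_nonneg_left hr hρ.le
    nlinarith

/-- **JOB Size** -/
theorem size : S_Size := by
  intro κ K ε Q hκ hK hε
  have hc := cI_pos
  have hcm := cI_mul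
  have hi := iln
  have hl2 := log2_pos
  have hl3 := log3_pos
  set δ : ℝ := κ / 2 with hδ
  have hδ0 : 0 < δ := by positivity
  obtain ⟨M, hM, h1⟩ := sq_lin ((K + √((1 + δ) / cI)) * Real.log 3)
    (Real.log (Q + 1) - Real.log ε) (c := Real.log 2 * (κ / 2)) (by positivity)
  obtain ⟨H₀, hH0, hH⟩ := log_large ((1 + δ) * M / cI)
  refine ⟨δ, hδ0, H₀, fun H hHH m r L hL hm1 hm2 hmr μ hμ o ho => ?_⟩
  have hlog := hH H hHH
  rw [div_le_iff₀ hc] at hlog
  have hm : M ≤ m := by
    have h3 : (1 + δ) * M ≤ (1 + δ) * m := by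
      calc _ ≤ Real.log H * cI := hlog
        _ = cI * Real.log H := mul_comm _ _
        _ ≤ _ := hm1
    exact le_of_mul_le_mul_left h3 (by linarith)
  have hm0 : (0 : ℝ) ≤ m := Nat.cast_nonneg _
  have hHp : (0 : ℝ) < H := by exact_mod_cast hH0.trans hHH
  have hLp : (0 : ℝ) < L := by exact_mod_cast hL
  have h2 := h1 m hm
  -- `μ`
  have hμ1 : (μ : ℝ) ≤ √((1 + δ) / cI) * √m := by
    rw [← Real.sqrt_mul (by positivity)]
    refine Real.le_sqrt_of_sq_le (hμ.trans ?_)
    have h3 : Real.log H = cI * Real.log H / cI := by field_simp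
    rw [h3, div_mul_eq_mul_div]
    exact div_le_div_of_nonneg_right hm1 hc.le
  have e1 := (abs_le.1 (typ_mem ho)).1
  have h6 : (m / 2 - K * √m) * Real.log 3 ≤ (o : ℝ) * Real.log 3 :=
    mul_le_mul_of_nonneg_right (by linarith) hl3.le
  have h7 : (μ : ℝ) * Real.log 3 ≤ √((1 + δ) / cI) * √m * Real.log 3 :=
    mul_le_mul_of_nonneg_right hμ1 hl3.le
  -- the logarithm of `L`
  have hlb : Real.logb 2 (L / H) * Real.log 2 = Real.log L - Real.log H := by
    rw [Real.logb, div_mul_cancel₀ _ hl2.ne', Real.log_div hLp.ne' hHp.ne']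
  have h8 := mul_le_mul_of_nonneg_right hmr hl2.le
  rw [add_mul (cI * Real.log H), hlb] at h8
  have h9 : (m : ℝ) * (Real.log 2 - Real.log 3 / 2) ≤ Real.log H := by
    have h10 := mul_le_mul_of_nonneg_right hm2 hi.le
    have h11 : cI * Real.log H * (Real.log 2 - Real.log 3 / 2) = Real.log H := by
      calc _ = (cI * (Real.log 2 - Real.log 3 / 2)) * Real.log H := by ring
        _ = _ := by rw [hcm, one_mul]
    rw [h11] at h10
    exact h10
  have h12 := mul_le_mul_of_nonneg_right hm1 hl2.le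
  have hr0 : (0 : ℝ) ≤ r := Nat.cast_nonneg _
  -- the claim
  have hmain : (m : ℝ) * Real.log 2 + (μ * Real.log 3 + (Real.log (Q + 1) + r * Real.log 2)) -
      o * Real.log 3 ≤ Real.log ε + Real.log L := by
    have h13 : 0 ≤ κ * r * Real.log 2 := by positivity
    rw [hδ] at *
    nlinarith
  have hQ : (0 : ℝ) < Q + 1 := by positivity
  have e2 : (2 : ℝ) ^ m * (3 ^ μ * ((Q + 1) * 2 ^ r)) / 3 ^ o = Real.exp ((m : ℝ) * Real.log 2 +
      (μ * Real.log 3 + (Real.log (Q + 1) + r * Real.log 2)) - o * Real.log 3) := by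
    rw [Real.exp_sub, Real.exp_add, Real.exp_add, Real.exp_add, Real.exp_log hQ,
      mul_comm (m : ℝ), mul_comm (μ : ℝ), mul_comm (r : ℝ), mul_comm (o : ℝ),
      Real.exp_mul, Real.exp_mul, Real.exp_mul, Real.exp_mul, Real.exp_log (by norm_num),
      Real.exp_log (by norm_num), Real.rpow_natCast, Real.rpow_natCast, Real.rpow_natCast,
      Real.rpow_natCast]
  have e3 : ε * L = Real.exp (Real.log ε + Real.log L) := by
    rw [Real.exp_add, Real.exp_log hε, Real.exp_log hLp]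
  calc (2 : ℝ) ^ m * (3 ^ μ * (Q * 2 ^ r)) / 3 ^ o ≤ (2 : ℝ) ^ m * (3 ^ μ * ((Q + 1) * 2 ^ r)) / 3 ^ o := by
        gcongr
        linarith
    _ ≤ ε * L := by
        rw [e2, e3]
        exact Real.exp_le_exp.2 hmain

/-- **JOB Ln** -/
theorem lnn : S_Ln := by
  intro η K ε hη hK hε
  have hc := cI_pos
  have hcm := cI_mul
  have hi := iln
  have hl2 := log2_pos
  have hl3 := log3_pos
  obtain ⟨M1, hM1, h1⟩ := sq_lin (Real.log 3 + K * √cI * Real.log 3) (- Real.log ε)
    (c := η / cI) (by positivity)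
  obtain ⟨M2, hM2, h2⟩ := sq_lin (K * Real.log 3) 0 (c := Real.log 2 - Real.log 3 / 2) hi
  obtain ⟨H₀, hH0, hH⟩ := log_large (max M1 M2)
  refine ⟨H₀, fun H hHH m hm1 hm2 μ hμ o ho => ?_⟩
  have hlog := hH H hHH
  have hℓ1 : M1 ≤ Real.log H := (le_max_left _ _).trans hlog
  have hℓ2 : M2 ≤ Real.log H := (le_max_right _ _).trans hlog
  have hHp : 1 ≤ H := hH0.trans hHH
  have e1 := abs_le.1 (typ_mem ho)
  have hm0 : (0 : ℝ) ≤ m := Nat.cast_nonneg _
  constructor
  · have h3 := h1 _ hℓ1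
    have h4 : √m ≤ √cI * √(Real.log H) := by
      rw [← Real.sqrt_mul hc.le]
      refine Real.sqrt_le_sqrt ?_
      have : 0 ≤ η * Real.log H := by
        have : 0 ≤ Real.log H := by linarith
        positivity
      linarith
    have h5 : (μ : ℝ) ≤ √(Real.log H) := Real.le_sqrt_of_sq_le hμ
    have h6 : (m / 2 - K * √m) * Real.log 3 ≤ (o : ℝ) * Real.log 3 :=
      mul_le_mul_of_nonneg_right (by linarith [e1.1]) hl3.le
    have h7 : (μ : ℝ) * Real.log 3 ≤ √(Real.log H) * Real.log 3 :=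
      mul_le_mul_of_nonneg_right h5 hl3.le
    have h8 : K * √m * Real.log 3 ≤ K * (√cI * √(Real.log H)) * Real.log 3 :=
      mul_le_mul_of_nonneg_right (mul_le_mul_of_nonneg_left h4 hK.le) hl3.le
    have h9 : (m : ℝ) * (Real.log 2 - Real.log 3 / 2) ≤
        Real.log H - η / cI * Real.log H := by
      have h10 := mul_le_mul_of_nonneg_right hm2 hi.le
      have h11 : (cI - η) * Real.log H * (Real.log 2 - Real.log 3 / 2) =
          Real.log H - η / cI * Real.log H := by
        have h12 : Real.log 2 - Real.log 3 / 2 = 1 / cI := by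
          rw [eq_div_iff hc.ne', mul_comm]
          exact hcm
        rw [h12]
        field_simp
      rw [h11] at h10
      exact h10
    have e2 : (3 : ℝ) ^ μ = Real.exp (μ * Real.log 3) := by
      rw [mul_comm, Real.exp_mul, Real.exp_log (by norm_num), Real.rpow_natCast]
    have e3 : ε = Real.exp (Real.log ε) := (Real.exp_log hε).symm
    rw [log_ln hHp, e2]
    nth_rewrite 1 [e3]
    rw [← Real.exp_add]
    apply Real.exp_le_exp.2
    nlinarith
  · have h3 := h2 m (hℓ2.trans hm1)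
    have h6 : (o : ℝ) * Real.log 3 ≤ (m / 2 + K * √m) * Real.log 3 :=
      mul_le_mul_of_nonneg_right (by linarith [e1.2]) hl3.le
    have h7 : (o : ℝ) * Real.log 3 ≤ m * Real.log 2 := by nlinarith
    have h8 : Real.log ((3 : ℝ) ^ o) ≤ Real.log ((2 : ℝ) ^ m) := by
      rw [Real.log_pow, Real.log_pow]
      exact h7
    have h9 : (3 : ℝ) ^ o ≤ 2 ^ m := (Real.log_le_log_iff (by positivity) (by positivity)).1 h8
    exact_mod_cast h9

end Pool.Agent.Q223.BH
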